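import Mathlib

/-!
# Density of connected sets under minimum degree three (MP_345bc6_co)

There is a constant `c < 1` with `D(G) ≤ c` for all connected graphs `G` of minimum degree at least
three.

Proof.  Growing a tree as Kleitman and West do, one finds a connected set `I` such that every vertex
of the complement `L` has a neighbour in `I` and `|L| ≥ n / 4`.  All sets between `I` and `V` are
connected, so there are at least `2 ^ (n / 4)` connected sets.  As only few sets have a complement
with at most `n / 32` elements (at most `(17/16) ^ n * 16 ^ (n/32)`), for `n ≥ 60` at least half of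
the connected sets have a complement with more than `n / 32` elements, so that `D(G) ≤ 63 / 64`.
For `n < 60` the one-element sets give `D(G) ≤ 1 - 2 ^ (-66)`.
-/

set_option autoImplicit false

open SimpleGraph Finset

namespace Pool.Agent.Results.MP_345bc6_co.DensityBounded

section Defs

open Classical in
/-- The connected sets: the nonempty sets of vertices inducing a connected subgraph. -/
noncomputable def connSets {V : Type*} [Fintype V] (G : SimpleGraph V) : Finset (Finset V) :=
  Finset.univ.filter fun U => (G.induce (U : Set V)).Connected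

/-- The density `D(G) = S(G) / (N(G) n)`. -/
noncomputable def density {V : Type*} [Fintype V] (G : SimpleGraph V) : ℝ :=
  ((∑ U ∈ connSets G, U.card : ℕ) : ℝ) / ((connSets G).card : ℝ) / (Fintype.card V : ℝ)

end Defs

section Cds

open Classical

variable {V : Type*} {G : SimpleGraph V}

theorem connected_insert {S : Set V} (hS : (G.induce S).Connected) {u v : V} (hu : u ∈ S)
    (huv : G.Adj u v) : (G.induce (insert v S)).Connected := by
  have h1 := induce_union_connected hS.preconnected
    (induce_pair_connected_of_adj huv).preconnected ⟨u, hu, by simp⟩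
  have h2 : S ∪ {u, v} = insert v S := by
    ext x
    simp only [Set.mem_union, Set.mem_insert_iff, Set.mem_singleton_iff]
    constructor
    · rintro (h | h | h)
      · exact Or.inr h
      · exact Or.inr (h ▸ hu)
      · exact Or.inl h
    · rintro (h | h)
      · exact Or.inr (Or.inr h)
      · exact Or.inl h
  rwa [h2] at h1

theorem connected_union {I : Finset V} (hI : (G.induce (I : Set V)).Connected) (U : Finset V)
    (hU : ∀ v ∈ U, ∃ u ∈ I, G.Adj u v) : (G.induce ((I ∪ U : Finset V) : Set V)).Connected := by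
  induction U using Finset.induction_on with
  | empty => rwa [union_empty]
  | insert a U _ ih =>
    obtain ⟨u, hu, hadj⟩ := hU a (mem_insert_self _ _)
    have h1 := connected_insert (ih fun v hv => hU v (mem_insert_of_mem hv))
      (mem_coe.mpr (mem_union_left _ hu)) hadj
    rw [union_insert, coe_insert]
    exact h1

variable [Fintype V]

/-- The leaves without neighbours outside the tree. -/
noncomputable def dead (G : SimpleGraph V) (I L : Finset V) : Finset V :=
  L.filter fun v => ∀ w, G.Adj v w → w ∈ I ∪ L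

/-- Partial trees: inner vertices `I`, leaves `L`. -/
structure State (G : SimpleGraph V) (I L : Finset V) : Prop where
  disj : Disjoint I L
  conn : (G.induce (I : Set V)).Connected
  leaf : ∀ v ∈ L, ∃ u ∈ I, G.Adj u v
  closed : ∀ u ∈ I, ∀ w, G.Adj u w → w ∈ I ∪ L
  pot : I.card ≤ 2 * L.card + (dead G I L).card

theorem exists_state [Nonempty V] (hdeg : ∀ v, 3 ≤ (G.neighborSet v).ncard) :
    ∃ I L : Finset V, State G I L := by
  obtain ⟨v⟩ := ‹Nonempty V›
  refine ⟨{v}, G.neighborFinset v, ?_, ?_, ?_, ?_, ?_⟩
  · rw [disjoint_singleton_left, mem_neighborFinset]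
    exact G.loopless.irrefl v
  · rw [coe_singleton]
    exact ⟨Preconnected.of_subsingleton⟩
  · intro w hw
    exact ⟨v, mem_singleton_self v, (mem_neighborFinset _ _ _).mp hw⟩
  · intro u hu w hw
    rw [mem_singleton] at hu
    subst hu
    exact mem_union_right _ ((mem_neighborFinset _ _ _).mpr hw)
  · have h1 := hdeg v
    rw [← coe_neighborFinset, Set.ncard_coe_finset] at h1
    rw [card_singleton]
    omega

theorem State.step (hG : G.Connected) (hdeg : ∀ v, 3 ≤ (G.neighborSet v).ncard)
    {I L : Finset V} (h : State G I L) (hne : I ∪ L ≠ univ) :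
    ∃ I' L' : Finset V, State G I' L' ∧ (I ∪ L).card < (I' ∪ L').card := by
  -- a leaf with a neighbour outside
  obtain ⟨v₀, hv₀, x₀, hx₀, hadj₀⟩ : ∃ v ∈ L, ∃ x, x ∉ I ∪ L ∧ G.Adj v x := by
    obtain ⟨y, hy⟩ : ∃ y, y ∉ I ∪ L := by
      by_contra hcon
      push Not at hcon
      exact hne (eq_univ_iff_forall.mpr hcon)
    obtain ⟨⟨i, hi⟩⟩ := h.conn.nonempty
    obtain ⟨p⟩ := hG.preconnected i y
    obtain ⟨d, hd, h1, h2⟩ := p.exists_boundary_dart ((I ∪ L : Finset V) : Set V)
      (mem_coe.mpr (mem_union_left _ hi)) (fun hc => hy (mem_coe.mp hc))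
    rw [mem_coe] at h1 h2
    rcases mem_union.mp h1 with h3 | h3
    · exact absurd (h.closed _ h3 _ d.adj) h2
    · exact ⟨_, h3, _, h2, d.adj⟩
  -- neighbours outside
  let out : V → Finset V := fun v => G.neighborFinset v \ (I ∪ L)
  have hout : ∀ v w, w ∈ out v ↔ G.Adj v w ∧ w ∉ I ∪ L := by
    intro v w
    simp only [out, mem_sdiff, mem_neighborFinset]
  have hIL : ∀ v, v ∈ L → v ∉ I := fun v hv hv' => (Finset.disjoint_left.mp h.disj) hv' hv
  by_cases hcase1 : ∃ v ∈ L, 2 ≤ (out v).card
  · obtain ⟨v, hv, hk⟩ := hcase1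
    obtain ⟨u, hu, huv⟩ := h.leaf v hv
    have hunion : ∀ w, w ∈ insert v I ∪ (L.erase v ∪ out v) ↔ w ∈ I ∪ L ∨ w ∈ out v := by
      intro w
      simp only [mem_union, mem_insert, mem_erase]
      by_cases hwv : w = v
      · subst hwv
        simp [hv]
      · tauto
    have hdis : Disjoint (L.erase v) (out v) := by
      rw [Finset.disjoint_left]
      intro w hw hw'
      exact ((hout v w).mp hw').2 (mem_union_right _ (mem_of_mem_erase hw))
    refine ⟨insert v I, L.erase v ∪ out v, ⟨?_, ?_, ?_, ?_, ?_⟩, ?_⟩
    · rw [Finset.disjoint_left]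
      intro w hw hw'
      rw [mem_insert] at hw
      rw [mem_union, mem_erase, hout] at hw'
      rcases hw with rfl | hw
      · rcases hw' with hw' | hw'
        · exact hw'.1 rfl
        · exact G.loopless.irrefl _ hw'.1
      · rcases hw' with hw' | hw'
        · exact hIL w hw'.2 hw
        · exact hw'.2 (mem_union_left _ hw)
    · rw [coe_insert]
      exact connected_insert h.conn hu huv
    · intro w hw
      rw [mem_union, mem_erase, hout] at hw
      rcases hw with hw | hw
      · obtain ⟨u', hu', hadj⟩ := h.leaf w hw.2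
        exact ⟨u', mem_insert_of_mem hu', hadj⟩
      · exact ⟨v, mem_insert_self _ _, hw.1⟩
    · intro u' hu' w hw
      rw [hunion]
      rcases mem_insert.mp hu' with rfl | hu'
      · by_cases hwI : w ∈ I ∪ L
        · exact Or.inl hwI
        · exact Or.inr ((hout _ _).mpr ⟨hw, hwI⟩)
      · exact Or.inl (h.closed u' hu' w hw)
    · have h1 : (insert v I).card = I.card + 1 := card_insert_of_notMem (hIL v hv)
      have h2 : (L.erase v ∪ out v).card = L.card - 1 + (out v).card := by
        rw [card_union_of_disjoint hdis, card_erase_of_mem hv]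
      have h3 : dead G I L ⊆ dead G (insert v I) (L.erase v ∪ out v) := by
        intro w hw
        rw [dead, mem_filter] at hw ⊢
        refine ⟨?_, fun z hz => ?_⟩
        · rw [mem_union, mem_erase]
          left
          refine ⟨?_, hw.1⟩
          rintro rfl
          obtain ⟨z, hz⟩ := card_pos.mp (lt_of_lt_of_le (by norm_num) hk)
          rw [hout] at hz
          exact hz.2 (hw.2 z hz.1)
        · rw [hunion]
          exact Or.inl (hw.2 z hz)
      have h4 := card_le_card h3
      have h5 := h.pot
      have h6 : 1 ≤ L.card := card_pos.mpr ⟨v, hv⟩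
      omega
    · apply card_lt_card
      rw [Finset.ssubset_iff_of_subset]
      · obtain ⟨z, hz⟩ := card_pos.mp (lt_of_lt_of_le (by norm_num) hk)
        exact ⟨z, (hunion z).mpr (Or.inr hz), ((hout v z).mp hz).2⟩
      · intro z hz
        exact (hunion z).mpr (Or.inl hz)
  -- now every leaf has at most one neighbour outside
  push Not at hcase1
  have huniq : ∀ v ∈ L, ∀ x y, G.Adj v x → x ∉ I ∪ L → G.Adj v y → y ∉ I ∪ L → x = y := by
    intro v hv x y h1 h2 h3 h4
    have h5 : (out v).card ≤ 1 := by
      have := hcase1 v hv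
      omega
    exact card_le_one.mp h5 x ((hout v x).mpr ⟨h1, h2⟩) y ((hout v y).mpr ⟨h3, h4⟩)
  obtain ⟨u, hu, huv⟩ := h.leaf v₀ hv₀
  have hx₀I : x₀ ∉ I := fun hc => hx₀ (mem_union_left _ hc)
  have hx₀L : x₀ ∉ L := fun hc => hx₀ (mem_union_right _ hc)
  have hv₀x₀ : v₀ ≠ x₀ := hadj₀.ne
  by_cases hcase2 : 2 ≤ (out x₀).card
  · have hx₀out : x₀ ∉ out x₀ := by
      rw [hout]
      exact fun hc => G.loopless.irrefl _ hc.1
    have hunion : ∀ w, w ∈ insert x₀ (insert v₀ I) ∪ (L.erase v₀ ∪ out x₀) ↔
        w ∈ I ∪ L ∨ w = x₀ ∨ w ∈ out x₀ := by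
      intro w
      simp only [mem_union, mem_insert, mem_erase]
      by_cases hwv : w = v₀
      · subst hwv
        simp [hv₀]
      · tauto
    have hdis : Disjoint (L.erase v₀) (out x₀) := by
      rw [Finset.disjoint_left]
      intro w hw hw'
      exact ((hout x₀ w).mp hw').2 (mem_union_right _ (mem_of_mem_erase hw))
    refine ⟨insert x₀ (insert v₀ I), L.erase v₀ ∪ out x₀, ⟨?_, ?_, ?_, ?_, ?_⟩, ?_⟩
    · rw [Finset.disjoint_left]
      intro w hw hw'
      rw [mem_insert, mem_insert] at hw
      rw [mem_union, mem_erase, hout] at hw'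
      rcases hw with rfl | rfl | hw
      · rcases hw' with hw' | hw'
        · exact hx₀L hw'.2
        · exact G.loopless.irrefl _ hw'.1
      · rcases hw' with hw' | hw'
        · exact hw'.1 rfl
        · exact hw'.2 (mem_union_right _ hv₀)
      · rcases hw' with hw' | hw'
        · exact hIL w hw'.2 hw
        · exact hw'.2 (mem_union_left _ hw)
    · rw [coe_insert, coe_insert]
      exact connected_insert (connected_insert h.conn hu huv) (Set.mem_insert _ _) hadj₀
    · intro w hw
      rw [mem_union, mem_erase, hout] at hw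
      rcases hw with hw | hw
      · obtain ⟨u', hu', hadj⟩ := h.leaf w hw.2
        exact ⟨u', mem_insert_of_mem (mem_insert_of_mem hu'), hadj⟩
      · exact ⟨x₀, mem_insert_self _ _, hw.1⟩
    · intro u' hu' w hw
      rw [hunion]
      rw [mem_insert, mem_insert] at hu'
      by_cases hwI : w ∈ I ∪ L
      · exact Or.inl hwI
      right
      rcases hu' with rfl | rfl | hu'
      · exact Or.inr ((hout _ _).mpr ⟨hw, hwI⟩)
      · exact Or.inl (huniq _ hv₀ _ _ hw hwI hadj₀ hx₀)
      · exact absurd (h.closed u' hu' w hw) hwI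
    · have h1 : (insert x₀ (insert v₀ I)).card = I.card + 2 := by
        rw [card_insert_of_notMem, card_insert_of_notMem (hIL v₀ hv₀)]
        rw [mem_insert, not_or]
        exact ⟨hv₀x₀.symm, hx₀I⟩
      have h2 : (L.erase v₀ ∪ out x₀).card = L.card - 1 + (out x₀).card := by
        rw [card_union_of_disjoint hdis, card_erase_of_mem hv₀]
      have h3 : dead G I L ⊆ dead G (insert x₀ (insert v₀ I)) (L.erase v₀ ∪ out x₀) := by
        intro w hw
        rw [dead, mem_filter] at hw ⊢
        refine ⟨?_, fun z hz => ?_⟩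
        · rw [mem_union, mem_erase]
          left
          refine ⟨?_, hw.1⟩
          rintro rfl
          exact hx₀ (hw.2 x₀ hadj₀)
        · rw [hunion]
          exact Or.inl (hw.2 z hz)
      have h4 := card_le_card h3
      have h5 := h.pot
      have h6 : 1 ≤ L.card := card_pos.mpr ⟨v₀, hv₀⟩
      omega
    · apply card_lt_card
      rw [Finset.ssubset_iff_of_subset]
      · exact ⟨x₀, (hunion x₀).mpr (Or.inr (Or.inl rfl)), hx₀⟩
      · intro z hz
        exact (hunion z).mpr (Or.inl hz)
  · -- `x₀` has two neighbours among the leaves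
    have hunion : ∀ w, w ∈ insert v₀ I ∪ insert x₀ (L.erase v₀) ↔ w ∈ I ∪ L ∨ w = x₀ := by
      intro w
      simp only [mem_union, mem_insert, mem_erase]
      by_cases hwv : w = v₀
      · subst hwv
        simp [hv₀]
      · tauto
    obtain ⟨v₁, hv₁, hv₁v₀, hadj₁⟩ : ∃ v₁ ∈ L, v₁ ≠ v₀ ∧ G.Adj x₀ v₁ := by
      have h1 := hdeg x₀
      rw [← coe_neighborFinset, Set.ncard_coe_finset] at h1
      have h2 : (G.neighborFinset x₀ \ (I ∪ L)).card + (G.neighborFinset x₀ ∩ (I ∪ L)).card =
          (G.neighborFinset x₀).card := card_sdiff_add_card_inter _ _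
      have h3 : (G.neighborFinset x₀ \ (I ∪ L)).card ≤ 1 := by
        have : ¬ 2 ≤ (G.neighborFinset x₀ \ (I ∪ L)).card := hcase2
        omega
      have h4 : 1 < (G.neighborFinset x₀ ∩ (I ∪ L)).card := by omega
      obtain ⟨v₁, hv₁, hne₁⟩ := exists_mem_ne h4 v₀
      rw [mem_inter, mem_neighborFinset] at hv₁
      refine ⟨v₁, ?_, hne₁, hv₁.1⟩
      rcases mem_union.mp hv₁.2 with h5 | h5
      · exact absurd (h.closed v₁ h5 x₀ hv₁.1.symm) hx₀
      · exact h5
    refine ⟨insert v₀ I, insert x₀ (L.erase v₀), ⟨?_, ?_, ?_, ?_, ?_⟩, ?_⟩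
    · rw [Finset.disjoint_left]
      intro w hw hw'
      rw [mem_insert] at hw
      rw [mem_insert, mem_erase] at hw'
      rcases hw with rfl | hw
      · rcases hw' with hw' | hw'
        · exact hv₀x₀ hw'
        · exact hw'.1 rfl
      · rcases hw' with rfl | hw'
        · exact hx₀I hw
        · exact hIL w hw'.2 hw
    · rw [coe_insert]
      exact connected_insert h.conn hu huv
    · intro w hw
      rw [mem_insert, mem_erase] at hw
      rcases hw with rfl | hw
      · exact ⟨v₀, mem_insert_self _ _, hadj₀⟩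
      · obtain ⟨u', hu', hadj⟩ := h.leaf w hw.2
        exact ⟨u', mem_insert_of_mem hu', hadj⟩
    · intro u' hu' w hw
      rw [hunion]
      by_cases hwI : w ∈ I ∪ L
      · exact Or.inl hwI
      right
      rcases mem_insert.mp hu' with rfl | hu'
      · exact huniq _ hv₀ _ _ hw hwI hadj₀ hx₀
      · exact absurd (h.closed u' hu' w hw) hwI
    · have h1 : (insert v₀ I).card = I.card + 1 := card_insert_of_notMem (hIL v₀ hv₀)
      have h2 : (insert x₀ (L.erase v₀)).card = L.card := by
        rw [card_insert_of_notMem, card_erase_of_mem hv₀]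
        · have : 1 ≤ L.card := card_pos.mpr ⟨v₀, hv₀⟩
          omega
        · rw [mem_erase]
          exact fun hc => hx₀L hc.2
      have h3 : insert v₁ (dead G I L) ⊆ dead G (insert v₀ I) (insert x₀ (L.erase v₀)) := by
        intro w hw
        rw [dead, mem_filter]
        rcases mem_insert.mp hw with rfl | hw
        · refine ⟨mem_insert_of_mem (mem_erase.mpr ⟨hv₁v₀, hv₁⟩), fun z hz => ?_⟩
          rw [hunion]
          by_cases hzI : z ∈ I ∪ L
          · exact Or.inl hzI
          · exact Or.inr (huniq _ hv₁ _ _ hz hzI hadj₁.symm hx₀)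
        · rw [dead, mem_filter] at hw
          refine ⟨?_, fun z hz => ?_⟩
          · rw [mem_insert, mem_erase]
            right
            refine ⟨?_, hw.1⟩
            rintro rfl
            exact hx₀ (hw.2 x₀ hadj₀)
          · rw [hunion]
            exact Or.inl (hw.2 z hz)
      have h4 := card_le_card h3
      have h5 : v₁ ∉ dead G I L := by
        rw [dead, mem_filter]
        exact fun hc => hx₀ (hc.2 x₀ hadj₁.symm)
      rw [card_insert_of_notMem h5] at h4
      have h6 := h.pot
      omega
    · apply card_lt_card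
      rw [Finset.ssubset_iff_of_subset]
      · exact ⟨x₀, (hunion x₀).mpr (Or.inr rfl), hx₀⟩
      · intro z hz
        exact (hunion z).mpr (Or.inl hz)

theorem exists_final (hG : G.Connected) (hdeg : ∀ v, 3 ≤ (G.neighborSet v).ncard) :
    ∃ I L : Finset V, State G I L ∧ I ∪ L = univ := by
  have key : ∀ m : ℕ, ∀ I L : Finset V, State G I L → Fintype.card V - (I ∪ L).card ≤ m →
      ∃ I L : Finset V, State G I L ∧ I ∪ L = univ := by
    intro m
    induction m with
    | zero =>
      intro I L h hm
      refine ⟨I, L, h, ?_⟩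
      rw [← card_eq_iff_eq_univ]
      have := card_le_univ (I ∪ L)
      omega
    | succ m ih =>
      intro I L h hm
      by_cases hne : I ∪ L = univ
      · exact ⟨I, L, h, hne⟩
      · obtain ⟨I', L', h', hlt⟩ := h.step hG hdeg hne
        exact ih I' L' h' (by omega)
  have := hG.nonempty
  obtain ⟨I, L, h⟩ := exists_state hdeg
  exact key _ I L h le_rfl

/-- There is a connected dominating set with at most three quarters of the vertices. -/
theorem exists_cds (hG : G.Connected) (hdeg : ∀ v, 3 ≤ (G.neighborSet v).ncard) :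
    ∃ I L : Finset V, Disjoint I L ∧ (G.induce (I : Set V)).Connected ∧
      (∀ v ∈ L, ∃ u ∈ I, G.Adj u v) ∧ Fintype.card V ≤ 4 * L.card := by
  obtain ⟨I, L, h, hIL⟩ := exists_final hG hdeg
  refine ⟨I, L, h.disj, h.conn, h.leaf, ?_⟩
  have h1 := h.pot
  have h2 : (dead G I L).card ≤ L.card := card_filter_le _ _
  have h3 : (I ∪ L).card = I.card + L.card := card_union_of_disjoint h.disj
  rw [hIL, card_univ] at h3
  omega

/-- There are many connected sets. -/
theorem pow_le_card (hG : G.Connected) (hdeg : ∀ v, 3 ≤ (G.neighborSet v).ncard) :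
    ∃ l : ℕ, Fintype.card V ≤ 4 * l ∧ 2 ^ l ≤ (connSets G).card := by
  obtain ⟨I, L, hdis, hI, hL, hcard⟩ := exists_cds hG hdeg
  refine ⟨L.card, hcard, ?_⟩
  rw [← card_powerset]
  refine card_le_card_of_injOn (fun U => I ∪ U) ?_ ?_
  · intro U hU
    rw [mem_coe, mem_powerset] at hU
    rw [mem_coe, connSets, mem_filter]
    exact ⟨mem_univ _, connected_union hI U fun v hv => hL v (hU hv)⟩
  · intro U hU U' hU' h
    rw [mem_coe, mem_powerset] at hU hU'
    have h1 : ∀ W ⊆ L, (I ∪ W) \ I = W := by
      intro W hW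
      rw [union_sdiff_left]
      exact sdiff_eq_self_of_disjoint (Disjoint.symm (Disjoint.mono_right hW hdis))
    have h2 : (I ∪ U) \ I = (I ∪ U') \ I := by
      simp only at h
      rw [h]
    rwa [h1 U hU, h1 U' hU'] at h2

end Cds

section Count

variable {V : Type*} [Fintype V]

/-- Few sets have small complements. -/
theorem card_small_le (k : ℕ) :
    (((univ : Finset (Finset V)).filter fun U => Fintype.card V - U.card ≤ k).card : ℝ) ≤
      (17 / 16) ^ Fintype.card V * 16 ^ k := by
  have h1 := Finset.sum_pow_mul_eq_add_pow (1 : ℝ) (1 / 16) (univ : Finset V)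
  rw [powerset_univ, card_univ] at h1
  have h2 : ∑ U ∈ (univ : Finset (Finset V)).filter (fun U => Fintype.card V - U.card ≤ k),
      ((1 : ℝ) / 16) ^ k ≤ (1 + 1 / 16) ^ Fintype.card V := by
    rw [← h1]
    calc ∑ U ∈ (univ : Finset (Finset V)).filter (fun U => Fintype.card V - U.card ≤ k),
        ((1 : ℝ) / 16) ^ k ≤
        ∑ U ∈ (univ : Finset (Finset V)).filter (fun U => Fintype.card V - U.card ≤ k),
          1 ^ U.card * ((1 : ℝ) / 16) ^ (Fintype.card V - U.card) := by
          refine sum_le_sum fun U hU => ?_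
          rw [one_pow, one_mul]
          exact pow_le_pow_of_le_one (by norm_num) (by norm_num) (mem_filter.mp hU).2
      _ ≤ _ := by
          refine sum_le_sum_of_subset_of_nonneg (filter_subset _ _) fun U _ _ => ?_
          positivity
  rw [sum_const, nsmul_eq_mul] at h2
  have h3 : ((1 : ℝ) / 16) ^ k * 16 ^ k = 1 := by
    rw [← mul_pow]
    norm_num
  have h4 : (0 : ℝ) < 16 ^ k := by positivity
  have h5 := mul_le_mul_of_nonneg_right h2 h4.le
  rw [mul_assoc, h3, mul_one] at h5
  refine h5.trans (le_of_eq ?_)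
  norm_num

theorem pow_le (n : ℕ) : ((17 : ℝ) / 16) ^ n ≤ 2 ^ (n / 11 + 1) := by
  have h1 : n ≤ 11 * (n / 11 + 1) := by omega
  calc ((17 : ℝ) / 16) ^ n ≤ (17 / 16) ^ (11 * (n / 11 + 1)) :=
        pow_le_pow_right₀ (by norm_num) h1
    _ = ((17 / 16) ^ 11) ^ (n / 11 + 1) := by rw [pow_mul]
    _ ≤ 2 ^ (n / 11 + 1) := by
        apply pow_le_pow_left₀ (by positivity)
        norm_num

end Count

section Main

variable {V : Type*} [Fintype V] {G : SimpleGraph V}

theorem sum_le_large (hG : G.Connected) (hdeg : ∀ v, 3 ≤ (G.neighborSet v).ncard)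
    (hn : 60 ≤ Fintype.card V) :
    64 * ∑ U ∈ connSets G, U.card ≤ 63 * ((connSets G).card * Fintype.card V) := by
  classical
  obtain ⟨l, hl, hN⟩ := pow_le_card hG hdeg
  set n := Fintype.card V with hndef
  have hsmall := card_small_le (V := V) (n / 32)
  rw [← hndef] at hsmall
  set small := (univ : Finset (Finset V)).filter fun U => n - U.card ≤ n / 32 with hsm
  have h1 : (2 * small.card : ℝ) ≤ 2 ^ l := by
    have h2 : (16 : ℝ) ^ (n / 32) = 2 ^ (4 * (n / 32)) := by
      rw [pow_mul]
      norm_num
    have h3 := pow_le n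
    calc (2 * small.card : ℝ) ≤ 2 * ((17 / 16) ^ n * 16 ^ (n / 32)) := by linarith
      _ ≤ 2 * (2 ^ (n / 11 + 1) * 2 ^ (4 * (n / 32))) := by
          rw [h2]
          have h4 : (0 : ℝ) < 2 ^ (4 * (n / 32)) := by positivity
          have h5 := mul_le_mul_of_nonneg_right h3 h4.le
          linarith
      _ = 2 ^ (n / 11 + 1 + 4 * (n / 32) + 1) := by
          rw [← pow_add]
          ring
      _ ≤ 2 ^ l := by
          apply pow_le_pow_right₀ (by norm_num)
          omega
  have h1' : 2 * small.card ≤ 2 ^ l := by exact_mod_cast h1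
  have h2 : 2 * ((connSets G).filter fun U => n - U.card ≤ n / 32).card ≤ (connSets G).card := by
    have h3 : ((connSets G).filter fun U => n - U.card ≤ n / 32) ⊆ small :=
      filter_subset_filter _ (subset_univ _)
    have h4 := card_le_card h3
    omega
  have h3 : ∑ U ∈ connSets G, 32 * U.card ≤
      ∑ U ∈ connSets G, (31 * n + if n - U.card ≤ n / 32 then n else 0) := by
    refine sum_le_sum fun U _ => ?_
    have h4 : U.card ≤ n := card_le_univ U
    split_ifs with h5
    · omega
    · omega
  rw [← mul_sum, sum_add_distrib, sum_const, smul_eq_mul, ← sum_filter, sum_const,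
    smul_eq_mul] at h3
  have h4 : 2 * ((connSets G).filter fun U => n - U.card ≤ n / 32).card * n ≤
      (connSets G).card * n := Nat.mul_le_mul_right _ h2
  nlinarith

theorem sum_le_small (hn : 2 ≤ Fintype.card V) [Nonempty V] :
    ∑ U ∈ connSets G, U.card + 1 ≤ (connSets G).card * Fintype.card V := by
  classical
  obtain ⟨v⟩ := ‹Nonempty V›
  have hv : ({v} : Finset V) ∈ connSets G := by
    rw [connSets, mem_filter]
    refine ⟨mem_univ _, ?_⟩
    rw [coe_singleton]
    exact ⟨Preconnected.of_subsingleton⟩
  rw [← add_sum_erase _ _ hv, ← card_erase_add_one hv, card_singleton]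
  have h1 : ∑ U ∈ (connSets G).erase {v}, U.card ≤
      ∑ U ∈ (connSets G).erase {v}, Fintype.card V := sum_le_sum fun U _ => card_le_univ U
  rw [sum_const, smul_eq_mul] at h1
  nlinarith

end Main

/-- There is a constant `c < 1` such that `D(G) ≤ c` for every connected graph of minimum degree at
least three. -/
theorem result : ∃ c : ℝ, c < 1 ∧ ∀ (V : Type) [Fintype V] (G : SimpleGraph V), G.Connected →
    (∀ v, 3 ≤ (G.neighborSet v).ncard) → density G ≤ c := by
  refine ⟨1 - 1 / 2 ^ 66, by norm_num, ?_⟩
  intro V _ G hG hdeg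
  have hne : Nonempty V := hG.nonempty
  obtain ⟨l, hl, hN⟩ := pow_le_card hG hdeg
  have hNpos : 0 < (connSets G).card := lt_of_lt_of_le (by positivity) hN
  have hn2 : 2 ≤ Fintype.card V := by
    obtain ⟨v⟩ := hne
    have h1 := hdeg v
    have h2 : (G.neighborSet v).ncard ≤ Fintype.card V := by
      rw [← Nat.card_eq_fintype_card]
      exact Set.ncard_le_card _
    omega
  have hn0 : (0 : ℝ) < Fintype.card V := by exact_mod_cast (by omega : 0 < Fintype.card V)
  have hN0 : (0 : ℝ) < (connSets G).card := by exact_mod_cast hNpos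
  rw [density, div_div, div_le_iff₀ (by positivity)]
  rcases le_or_gt 60 (Fintype.card V) with hn | hn
  · have h1 := sum_le_large hG hdeg hn
    have h2 : (64 : ℝ) * ((∑ U ∈ connSets G, U.card : ℕ) : ℝ) ≤
        63 * ((connSets G).card * Fintype.card V) := by exact_mod_cast h1
    have h3 : (0 : ℝ) < (connSets G).card * Fintype.card V := by positivity
    have h4 : ((63 : ℝ) / 64) * ((connSets G).card * Fintype.card V) ≤
        (1 - 1 / 2 ^ 66) * ((connSets G).card * Fintype.card V) := by
      apply mul_le_mul_of_nonneg_right _ h3.le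
      norm_num
    linarith
  · have h1 := sum_le_small (G := G) hn2
    have h2 : ((∑ U ∈ connSets G, U.card : ℕ) : ℝ) + 1 ≤
        (connSets G).card * Fintype.card V := by exact_mod_cast h1
    have h3 : (connSets G).card ≤ 2 ^ 60 := by
      have h4 : (connSets G).card ≤ 2 ^ Fintype.card V := by
        rw [← Fintype.card_finset]
        exact card_le_univ _
      exact h4.trans (Nat.pow_le_pow_right (by norm_num) (by omega))
    have h5 : (connSets G).card * Fintype.card V ≤ 2 ^ 60 * 2 ^ 6 :=
      Nat.mul_le_mul h3 (by omega)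
    have h6 : ((connSets G).card : ℝ) * Fintype.card V ≤ 2 ^ 66 := by
      have : (((connSets G).card * Fintype.card V : ℕ) : ℝ) ≤ ((2 ^ 60 * 2 ^ 6 : ℕ) : ℝ) := by
        exact_mod_cast h5
      push_cast at this
      linarith
    have h7 : 1 / (2 : ℝ) ^ 66 * ((connSets G).card * Fintype.card V) ≤ 1 := by
      rw [one_div, inv_mul_le_iff₀ (by positivity)]
      linarith
    linarith

end Pool.Agent.Results.MP_345bc6_co.DensityBounded
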